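import Pool.Agent.helper16.LW.Spec

/-!
Module S1B of project lw (MP_4467b5_nt): the quadratic sum of the terms of nonzero frequency in the Poisson formula,
with the weights `F0`.
-/

set_option autoImplicit false

open Complex MeasureTheory

namespace Pool.Agent.LW

open Pool.Agent.ZD Pool.Agent.helper84.DM Pool.Agent.helper78.ED Pool.Agent.DH

theorem S1B_F0_nonneg (hFEJ : FEJ_stmt) (J N : ℕ) (a : ℕ → ℂ) (j : ℤ) (hj : j ∈ IJ J) : 0 ≤ F0 J N a j :=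
  mul_nonneg (hFEJ.2.1 J j hj).1 (by positivity)

theorem S1B_exp (x : ℝ) : ‖Complex.exp (-((x : ℂ) * I))‖ = 1 := by
  rw [← neg_mul, ← Complex.ofReal_neg, Complex.norm_exp_ofReal_mul_I]

theorem S1B (hK1 : K1_stmt) (hPB1 : PB1_stmt) (hMVF : MVF_stmt) (hFEJ : FEJ_stmt) : S1B_stmt := by
  intro ε hε
  have hδ : 0 < min 1 (ε / 8) := lt_min one_pos (by positivity)
  obtain ⟨C1, hC1, h1⟩ := hK1 (ε / 2) (min 1 (ε / 8)) (by positivity) hδ (min_le_left _ _)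
  obtain ⟨C2, hC2, h2⟩ := hPB1 1 (min 1 (ε / 8)) one_pos hδ
  obtain ⟨C3, hC3, h3⟩ := hMVF
  refine ⟨2 * C1 + 2 * C2 ^ 2 * C3, by positivity, ?_⟩
  intro J N X u a hN hNJ hNX hu hCo
  set δ : ℝ := min 1 (ε / 8) with hδd
  have hN1 : (1 : ℝ) ≤ N := by exact_mod_cast hN
  have hX1 : 1 ≤ X := hN1.trans hNX
  have hJ1n : 1 ≤ J := hN.trans hNJ
  have hJ1 : (1 : ℝ) ≤ J := by exact_mod_cast hJ1n
  have hX0 : 0 < X := by linarith
  set M : ℕ := ⌊(J : ℝ) ^ (1 + δ) / X⌋₊ with hM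
  have hP0 : 0 ≤ (J : ℝ) ^ (1 + δ) / X := by positivity
  have hM1 : (M : ℝ) * X ≤ (J : ℝ) ^ (1 + δ) := by
    have := Nat.floor_le hP0
    rwa [le_div_iff₀ hX0] at this
  have hM2 : (J : ℝ) ^ (1 + δ) ≤ X * ((M : ℝ) + 1) := by
    have := (Nat.lt_floor_add_one ((J : ℝ) ^ (1 + δ) / X)).le
    rw [div_le_iff₀ hX0] at this
    rw [mul_comm]
    exact this
  have hB : ∀ k ∈ IJ J, ‖B1 X (u - k)‖ ^ 2 ≤ 2 * ‖Bs X M (u - k)‖ ^ 2 + 2 * C2 ^ 2 := by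
    intro k hk
    have hk2 : |(k : ℝ)| ≤ J := by
      rw [IJ, Finset.mem_Ioo] at hk
      rw [abs_le]
      constructor
      · exact_mod_cast hk.1.le
      · exact_mod_cast hk.2.le
    have hu2 : |u - k| ≤ 2 * J := by
      calc |u - k| ≤ |u| + |(k : ℝ)| := abs_sub _ _
        _ ≤ 2 * J := by linarith
    have h4 := h2 J M X (u - k) hJ1n hX1 hu2 hM2
    have h5 : C2 * (J : ℝ) ^ (-(1 : ℝ)) ≤ C2 := by
      have : (J : ℝ) ^ (-(1 : ℝ)) ≤ 1 := Real.rpow_le_one_of_one_le_of_nonpos hJ1 (by norm_num)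
      nlinarith
    have h6 : ‖B1 X (u - k)‖ ≤ ‖Bs X M (u - k)‖ + C2 := by
      have h7 : B1 X (u - k) = (B1 X (u - k) -
          Complex.exp (-((((u - k) * Real.log X : ℝ) : ℂ) * I)) * Bs X M (u - k)) +
          Complex.exp (-((((u - k) * Real.log X : ℝ) : ℂ) * I)) * Bs X M (u - k) := by ring
      rw [h7]
      refine (norm_add_le _ _).trans ?_
      rw [norm_mul, S1B_exp, one_mul]
      linarith
    have h8 := norm_nonneg (B1 X (u - k))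
    have h9 := norm_nonneg (Bs X M (u - k))
    calc ‖B1 X (u - k)‖ ^ 2 ≤ (‖Bs X M (u - k)‖ + C2) ^ 2 := pow_le_pow_left₀ h8 h6 2
      _ ≤ 2 * ‖Bs X M (u - k)‖ ^ 2 + 2 * C2 ^ 2 := by nlinarith [sq_nonneg (‖Bs X M (u - k)‖ - C2)]
  have hK := h1 J N M X u a hN hNJ hNX hM1 hCo
  have hV := h3 J N a hN hNJ hCo
  have hXJN : (0 : ℝ) ≤ X * J * N := by positivity
  have hexp : (J : ℝ) ^ (ε / 2 + 4 * δ) ≤ (J : ℝ) ^ ε := by
    apply Real.rpow_le_rpow_of_exponent_le hJ1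
    have : δ ≤ ε / 8 := min_le_right _ _
    linarith
  have hone : (1 : ℝ) ≤ (J : ℝ) ^ ε := Real.one_le_rpow hJ1 hε.le
  calc ∑ k ∈ IJ J, F0 J N a k * ‖B1 X (u - k)‖ ^ 2
      ≤ ∑ k ∈ IJ J, F0 J N a k * (2 * ‖Bs X M (u - k)‖ ^ 2 + 2 * C2 ^ 2) :=
        Finset.sum_le_sum fun k hk => mul_le_mul_of_nonneg_left (hB k hk) (S1B_F0_nonneg hFEJ J N a k hk)
    _ = 2 * ∑ k ∈ IJ J, F0 J N a k * ‖Bs X M (u - k)‖ ^ 2 + 2 * C2 ^ 2 * ∑ k ∈ IJ J, F0 J N a k := by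
        rw [Finset.mul_sum, Finset.mul_sum, ← Finset.sum_add_distrib]
        refine Finset.sum_congr rfl fun k _ => ?_
        ring
    _ ≤ 2 * (C1 * (J : ℝ) ^ ε * (X * J * N)) + 2 * C2 ^ 2 * (C3 * (J : ℝ) ^ ε * (X * J * N)) := by
        have e1 : C1 * (J : ℝ) ^ (ε / 2 + 4 * δ) * (X * J * N) ≤ C1 * (J : ℝ) ^ ε * (X * J * N) := by
          gcongr
        have e2 : C3 * J * N ≤ C3 * (J : ℝ) ^ ε * (X * J * N) := by
          have e3 : (J : ℝ) * N ≤ X * J * N := by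
            have : (0 : ℝ) ≤ (J : ℝ) * N := by positivity
            nlinarith
          have e4 : X * J * N ≤ (J : ℝ) ^ ε * (X * J * N) := by nlinarith
          calc C3 * J * N = C3 * (J * N) := by ring
            _ ≤ C3 * ((J : ℝ) ^ ε * (X * J * N)) := mul_le_mul_of_nonneg_left (e3.trans e4) hC3.le
            _ = C3 * (J : ℝ) ^ ε * (X * J * N) := by ring
        have e5 : 0 ≤ 2 * C2 ^ 2 := by positivity
        have e6 := mul_le_mul_of_nonneg_left (hV.trans e2) e5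
        linarith [hK.trans e1]
    _ = (2 * C1 + 2 * C2 ^ 2 * C3) * (J : ℝ) ^ ε * (X * J * N) := by ring

end Pool.Agent.LW
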